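import Mathlib
import Pool.Agent.H.MP_5269d5_an.D

set_option autoImplicit false
open MeasureTheory Filter Topology
open scoped ENNReal

namespace Pool.Agent.Results.MP_5269d5_an.Yes

def Spectrum (μ : Measure ℝ) (Λ : Set ℝ) : Prop :=
  Λ.Countable ∧ ∃ v : Λ → Lp ℂ 2 μ,
    (∀ l : Λ, v l =ᵐ[μ] fun x : ℝ => Complex.exp (2 * Real.pi * Complex.I * (l : ℝ) * x)) ∧
    Orthonormal ℂ v ∧ (Submodule.span ℂ (Set.range v)).topologicalClosure = ⊤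

noncomputable def Dens (r : ℝ) (Λ : Set ℝ) : ℝ≥0∞ :=
  limsup (fun h : ℝ => ⨆ x : ℝ, ((Λ ∩ Set.Ioo (x - h) (x + h)).encard : ℝ≥0∞) /
    ENNReal.ofReal (h ^ r)) atTop

open Pool.Agent.H.MP_5269d5_an Pool.Agent.H.MP_47966f_an in
theorem result (p q : ℕ) (hq : 2 ≤ q) (hqp : q ∣ p) (hp : q < p) (μ : Measure ℝ)
    [IsProbabilityMeasure μ]
    (hμ : μ = (q : ℝ≥0∞)⁻¹ • ∑ j ∈ Finset.range q,
      μ.map fun x : ℝ => (p : ℝ)⁻¹ * (x + (p : ℝ) / q * j))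
    (d : ℝ) (hd : 0 ≤ d)
    (hM : d ≤ (2 * ((p : ℝ) - 1) / ((q : ℝ) - 1)) ^ (Real.log q / Real.log p)) :
    ∃ Λ : Set ℝ, Spectrum μ Λ ∧ Dens (Real.log q / Real.log p) Λ = ENNReal.ofReal d := by
  obtain ⟨w, rfl⟩ := hqp
  have hw : 2 ≤ w := by
    rcases w with _ | _ | w <;> omega
  have hq0 : (q : ℝ) ≠ 0 := by positivity
  push_cast at hμ hM ⊢
  rw [mul_div_cancel_left₀ _ hq0] at hμ
  obtain ⟨K, L, h1, h2, h3⟩ := choose_K hq hw hd (by rwa [del, div_div_eq_mul_div])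
  obtain ⟨h4, h5⟩ := tau_spec hq hw μ (selfsim hq hw μ hμ) Kᶜ L
  exact ⟨_, ⟨(Set.to_countable _).image _, _, fun l => ev_ae' μ l, h4, h5⟩,
    dens hq hw h1 hd h2 h3⟩

end Pool.Agent.Results.MP_5269d5_an.Yes
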